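import Pool.Agent.Y241.FR.Final

/-!
# Fibres of general linear projections: minimal polynomials (MP_9e4267_ag)

Let `X` be a smooth projective variety of dimension `n` in projective `r`-space over an
algebraically closed field of characteristic zero and let `n + c < r`. For a general projection
`π : X → P^{n+c}` every element of the coordinate ring of every fibre is a root of a monic
polynomial of degree at most `n/c + 1`; this implies, and is stronger than, the bound `n/c + 1` for
the Castelnuovo-Mumford regularity of the fibre (the question), which is also part of the statement.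
Moreover both bounds improve to `(n-s)/c + 1` over a general linear subspace of codimension `s` of
the target.

The local theorem behind the proof and the definitions of the regularity and of the Grassmannian
are in the starting files `Pool/Agent/Helper693/RF` and `Pool/Agent/Helper26/RG` (helpers 693, 26
and others).
-/

namespace Pool.Agent.Results.MP_9e4267_ag.FibreMinimalPolynomials

open MvPolynomial H693RF Pool.Agent.Y241.FR

/-- For a smooth projective variety of dimension `n` in projective `r`-space there is a dense open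
subset `U` of the Grassmannian of centres such that for every centre in `U` the projection to
projective `(n+c)`-space is defined on the variety and, for all forms `H` with this centre:
(1) every fibre has regularity at most `n/c + 1`, and every element of the coordinate ring of the
fibre is a root of a monic polynomial of degree at most `n/c + 1`;
(2) for every `s ≤ n + c` and all `s`-tuples `M` of linear forms on the target outside a
hypersurface: for every fibre over a point of the linear subspace `M = 0` and every `D` with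
`n < s + c D`, every element of the coordinate ring of the fibre is a root of a monic polynomial of
degree `D`, and the regularity is at most `D` if `D ≥ 1`. -/
theorem result (𝕜 : Type*) [Field 𝕜] [IsAlgClosed 𝕜] [CharZero 𝕜] (r n c : ℕ) (hc : 1 ≤ c)
    (hr : n + c < r) (P : Ideal (MvPolynomial (Fin (r+1)) 𝕜))
    (hP : IsSmoothProjectiveVariety 𝕜 r n P) :
    ∃ U : Set (Submodule 𝕜 (Fin (r+1) → 𝕜)), IsDenseOpen r (n+c+1) U ∧
      ∀ Λ ∈ U, (∀ x ∈ Λ, x ≠ 0 → ∃ F ∈ P, eval x F ≠ 0) ∧
        ∀ H : Fin (n+c+1) → Fin (r+1) → 𝕜, centre H = Λ →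
          (∀ p : Fin (n+c+1) → 𝕜, p ≠ 0 →
            (∃ m : ℕ, IsRegularity (fiberIdeal P H p) m ∧ (m : ℚ) ≤ (n : ℚ) / c + 1) ∧
            ∀ g : MvPolynomial (Fin (r+1)) 𝕜, ∃ Q : Polynomial 𝕜, Q.Monic ∧
              (Q.natDegree : ℚ) ≤ (n : ℚ) / c + 1 ∧
              Polynomial.aeval g Q ∈ fibreRingIdeal P H p) ∧
          (∀ s : ℕ, s ≤ n + c → ∃ Ψ : MvPolynomial (Fin s × Fin (n+c+1)) 𝕜, Ψ ≠ 0 ∧
            ∀ M : Fin s → Fin (n+c+1) → 𝕜, eval (fun il => M il.1 il.2) Ψ ≠ 0 →
              ∀ p : Fin (n+c+1) → 𝕜, p ≠ 0 → (∀ i, ∑ l, M i l * p l = 0) →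
                ∀ D : ℕ, n < s + c * D →
                  (∀ g : MvPolynomial (Fin (r+1)) 𝕜, ∃ Q : Polynomial 𝕜, Q.Monic ∧
                    Q.natDegree = D ∧ Polynomial.aeval g Q ∈ fibreRingIdeal P H p) ∧
                  (1 ≤ D → ∃ m : ℕ, IsRegularity (fiberIdeal P H p) m ∧ m ≤ D)) := by
  obtain ⟨U, hU, hmain⟩ := main 𝕜 r n c hc hr P hP
  refine ⟨U, hU, fun Λ hΛ => ⟨(hmain Λ hΛ).1, fun H hH => ⟨fun p hp => ?_, (hmain Λ hΛ).2 H hH⟩⟩⟩
  obtain ⟨Ψ, hΨ, h⟩ := (hmain Λ hΛ).2 H hH 0 (Nat.zero_le _)
  obtain ⟨x, hx⟩ : ∃ x, eval x Ψ ≠ 0 := by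
    by_contra hcon
    push Not at hcon
    exact hΨ (MvPolynomial.funext fun x => by rw [hcon x, map_zero])
  have hx' : (fun il : Fin 0 × Fin (n+c+1) => (fun i => i.elim0 : Fin 0 → Fin (n+c+1) → 𝕜)
      il.1 il.2) = x := by
    funext il
    exact il.1.elim0
  rw [← hx'] at hx
  have hlt : n < 0 + c * (n / c + 1) := by
    rw [zero_add]
    exact Nat.lt_mul_div_succ n (by omega)
  have hb : FibreBound P H p (n / c + 1) :=
    h _ hx p hp (fun i => i.elim0) (n / c + 1) hlt
  have h7 : ((n / c : ℕ) : ℚ) ≤ (n : ℚ) / c := Nat.cast_div_le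
  constructor
  · obtain ⟨m, hm, hm1⟩ := hb.2 (Nat.le_add_left 1 _)
    refine ⟨m, hm, ?_⟩
    have h6 : (m : ℚ) ≤ ((n / c + 1 : ℕ) : ℚ) := by exact_mod_cast hm1
    refine h6.trans ?_
    push_cast
    linarith
  · intro g
    obtain ⟨Q, hQm, hQd, hQ⟩ := hb.1 g
    refine ⟨Q, hQm, ?_, hQ⟩
    rw [hQd]
    push_cast
    linarith

end Pool.Agent.Results.MP_9e4267_ag.FibreMinimalPolynomials
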